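import Pool.Agent.Helper38.IA.St

/-!
# Project IA, module T2 (codegree sums, sum type)
-/

set_option autoImplicit false

namespace Pool.Agent.Helper34.IA38

open Finset Pool.Agent.Helper93.IA Pool.Agent.Helper38.IA

private theorem t2_card {X : Type} [Fintype X] (p q : X → Prop) [DecidablePred p]
    [DecidablePred q] [DecidablePred fun x => p x ∧ q x] :
    ((univ.filter fun x => p x ∧ q x).card : ℝ)
      = ∑ x, (if p x then (1 : ℝ) else 0) * (if q x then (1 : ℝ) else 0) := by
  rw [Finset.card_filter]
  push_cast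
  refine Finset.sum_congr rfl fun x _ => ?_
  by_cases h1 : p x <;> by_cases h2 : q x <;> simp [h1, h2]

private theorem t2_nn {X : Type} [Fintype X] (p q : X → Prop) [DecidablePred p]
    [DecidablePred q] :
    0 ≤ ∑ x, (if p x then (1 : ℝ) else 0) * (if q x then (1 : ℝ) else 0) := by
  refine Finset.sum_nonneg fun x _ => ?_
  by_cases h1 : p x <;> by_cases h2 : q x <;> simp [h1, h2]

private theorem t2_comm {X : Type} [Fintype X] (p q : X → Prop) [DecidablePred p]
    [DecidablePred q] :
    ∑ x, (if p x then (1 : ℝ) else 0) * (if q x then (1 : ℝ) else 0)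
      = ∑ x, (if q x then (1 : ℝ) else 0) * (if p x then (1 : ℝ) else 0) :=
  Finset.sum_congr rfl fun x _ => mul_comm _ _

theorem hT2 : StT2 := by
  intro α β γ _ _ _ _ _ _ A B C
  refine ⟨?_, ?_, ?_, ?_, ?_, ?_⟩
  · intro a a'
    rw [t2_card, Fintype.sum_sum_type, Fintype.sum_sum_type]
    simp only [Wt, Sum.elim_inl, Sum.elim_inr, mul_zero, Finset.sum_const_zero]
    have h := t2_nn (fun c : γ => (c, a) ∈ C) (fun c : γ => (c, a') ∈ C)
    linarith
  · intro b b'
    rw [t2_card, Fintype.sum_sum_type, Fintype.sum_sum_type]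
    simp only [Wt, Sum.elim_inl, Sum.elim_inr, mul_zero, Finset.sum_const_zero]
    have h := t2_nn (fun a : α => (a, b) ∈ A) (fun a : α => (a, b') ∈ A)
    linarith
  · intro c c'
    rw [t2_card, Fintype.sum_sum_type, Fintype.sum_sum_type]
    simp only [Wt, Sum.elim_inl, Sum.elim_inr, mul_zero, Finset.sum_const_zero]
    have h := t2_nn (fun b : β => (b, c) ∈ B) (fun b : β => (b, c') ∈ B)
    linarith
  · intro a b
    constructor
    · rw [t2_card, Fintype.sum_sum_type, Fintype.sum_sum_type]
      simp only [Wt, Sum.elim_inl, Sum.elim_inr, mul_zero, zero_mul, Finset.sum_const_zero]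
      linarith
    · rw [t2_card, Fintype.sum_sum_type, Fintype.sum_sum_type]
      simp only [Wt, Sum.elim_inl, Sum.elim_inr, mul_zero, zero_mul, Finset.sum_const_zero]
      have h := t2_comm (fun c : γ => (c, a) ∈ C) (fun c : γ => (b, c) ∈ B)
      linarith
  · intro b c
    constructor
    · rw [t2_card, Fintype.sum_sum_type, Fintype.sum_sum_type]
      simp only [Wt, Sum.elim_inl, Sum.elim_inr, mul_zero, zero_mul, Finset.sum_const_zero]
      linarith
    · rw [t2_card, Fintype.sum_sum_type, Fintype.sum_sum_type]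
      simp only [Wt, Sum.elim_inl, Sum.elim_inr, mul_zero, zero_mul, Finset.sum_const_zero]
      have h := t2_comm (fun a : α => (a, b) ∈ A) (fun a : α => (c, a) ∈ C)
      linarith
  · intro c a
    constructor
    · rw [t2_card, Fintype.sum_sum_type, Fintype.sum_sum_type]
      simp only [Wt, Sum.elim_inl, Sum.elim_inr, mul_zero, zero_mul, Finset.sum_const_zero]
      linarith
    · rw [t2_card, Fintype.sum_sum_type, Fintype.sum_sum_type]
      simp only [Wt, Sum.elim_inl, Sum.elim_inr, mul_zero, zero_mul, Finset.sum_const_zero]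
      have h := t2_comm (fun b : β => (b, c) ∈ B) (fun b : β => (a, b) ∈ A)
      linarith

end Pool.Agent.Helper34.IA38
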